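import Pool.Agent.H878.Heis6
import Pool.Agent.H878.Eig

/-!
A uniquely ergodic Heisenberg nilflow with a measurably non-trivial smooth time change
which is not weakly mixing (hence not mixing).

The nilmanifold is `Heis ⧸ Gam`, where `Heis` is the group of real upper unitriangular
`3 × 3` matrices and `Gam` its integer points, and the nilflow is
`x ↦ exp (t X) • x` with `X = (1, β, 0)`.  (Inversion `g ↦ g⁻¹` turns it into the flow
`Γ g ↦ Γ g exp (- t X)` on `Γ \ G`.)
-/

open MeasureTheory Filter Topology

namespace Pool.Agent.Results.MP_442888_an.HeisenbergTimeChange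

open Pool.Agent.H878 Pool.Agent.H878.Heis

/-- the nilflow `x ↦ exp (t X) x` on the Heisenberg nilmanifold, where `X` is the Lie algebra
element with coordinates `(1, β, 0)`, so that `exp (t X) = (t, β t, β t ^ 2 / 2)` -/
noncomputable def nilflow (β : ℝ) (t : ℝ) (x : Nil) : Nil :=
  Heis.of t (β * t) (β * t ^ 2 / 2) • x

/-- `μ` is an invariant Borel probability measure of the flow `φ`, and it is the only one -/
def UniquelyErgodic {M : Type} [MeasurableSpace M] (φ : ℝ → M → M) (μ : Measure M) : Prop :=
  (IsProbabilityMeasure μ ∧ ∀ t, MeasurePreserving (φ t) μ μ) ∧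
    ∀ ν : Measure M, IsProbabilityMeasure ν → (∀ t, MeasurePreserving (φ t) ν ν) → ν = μ

/-- the time change function `α` is measurably cohomologous to a constant over the flow `φ` -/
def MeasurablyTrivial {M : Type} [MeasurableSpace M] (φ : ℝ → M → M) (μ : Measure M)
    (α : M → ℝ) : Prop :=
  ∃ (c : ℝ) (u : M → ℝ), Measurable u ∧
    ∀ t : ℝ, ∀ᵐ x ∂μ, u (φ t x) - u x = ∫ s in (0:ℝ)..t, (α (φ s x) - c)

/-- `ψ` is the flow obtained from `φ` by the time change `α`, i.e. the flow generated by
`X / α` if `φ` is generated by `X`: after the time `∫₀ᵗ α (φ_s x) ds` the point `x` has moved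
to `φ_t x` -/
def IsTimeChange {M : Type} (φ : ℝ → M → M) (α : M → ℝ) (ψ : ℝ → M → M) : Prop :=
  (∀ x, ψ 0 x = x) ∧ (∀ s t x, ψ (s + t) x = ψ s (ψ t x)) ∧
    ∀ t x, ψ (∫ s in (0:ℝ)..t, α (φ s x)) x = φ t x

/-- the probability measure proportional to `α μ` -/
noncomputable def timeChangeMeasure {M : Type} [MeasurableSpace M] (μ : Measure M)
    (α : M → ℝ) : Measure M :=
  (μ.withDensity (fun x => ENNReal.ofReal (α x)) Set.univ)⁻¹ •
    μ.withDensity (fun x => ENNReal.ofReal (α x))

/-- weak mixing of a flow `ψ` with respect to `ν` -/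
def WeaklyMixing {M : Type} [MeasurableSpace M] (ψ : ℝ → M → M) (ν : Measure M) : Prop :=
  ∀ A B : Set M, MeasurableSet A → MeasurableSet B →
    Tendsto (fun t : ℝ => t⁻¹ * ∫ s in (0:ℝ)..t, |ν.real (ψ s '' A ∩ B) - ν.real A * ν.real B|)
      atTop (𝓝 0)

/-- mixing of a flow `ψ` with respect to `ν` -/
def Mixing {M : Type} [MeasurableSpace M] (ψ : ℝ → M → M) (ν : Measure M) : Prop :=
  ∀ A B : Set M, MeasurableSet A → MeasurableSet B →
    Tendsto (fun t : ℝ => ν.real (ψ t '' A ∩ B)) atTop (𝓝 (ν.real A * ν.real B))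

/-- **Negative answer to both questions, for Heisenberg nilflows.**  There are a slope `β` and a
`C^∞` function `α > 0` on the Heisenberg nilmanifold such that the nilflow in the direction
`X = (1, β, 0)` is parabolic and uniquely ergodic, `α` is measurably non-trivial, and the time
changed flow `ψ`, which is a continuous flow preserving the probability measure proportional to
`α μ`, is neither weakly mixing nor mixing. -/
theorem result : ∃ (β : ℝ) (α : Nil → ℝ) (ψ : ℝ → Nil → Nil),
    -- `X` is not central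
    (∃ (t : ℝ) (g : Heis), Heis.of t (β * t) (β * t ^ 2 / 2) * g ≠
      g * Heis.of t (β * t) (β * t ^ 2 / 2)) ∧
    -- `mu` is the Haar measure of the compact nilmanifold
    (CompactSpace Nil ∧ ∀ g : Heis, MeasurePreserving (fun x : Nil => g • x) mu mu) ∧
    -- unique ergodicity of the nilflow
    UniquelyErgodic (nilflow β) mu ∧
    -- smoothness and positivity of the time change
    ContDiff ℝ ((⊤ : ℕ∞) : WithTop ℕ∞)
      (fun v : ℝ × ℝ × ℝ => α (QuotientGroup.mk (Heis.of v.1 v.2.1 v.2.2))) ∧
    (∀ x, 0 < α x) ∧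
    -- measurable non-triviality
    ¬ MeasurablyTrivial (nilflow β) mu α ∧
    -- the time changed flow
    IsTimeChange (nilflow β) α ψ ∧
    Continuous (fun p : ℝ × Nil => ψ p.1 p.2) ∧
    (IsProbabilityMeasure (timeChangeMeasure mu α) ∧
      ∀ t, MeasurePreserving (ψ t) (timeChangeMeasure mu α) (timeChangeMeasure mu α)) ∧
    -- it is not weakly mixing, and not mixing
    ¬ WeaklyMixing ψ (timeChangeMeasure mu α) ∧
    ¬ Mixing ψ (timeChangeMeasure mu α) := by
  have hflow : nilflow bet = flo := by
    funext t x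
    rfl
  have hnu : timeChangeMeasure mu alp = nu := rfl
  refine ⟨bet, alp, psi, ?_, ⟨inferInstance, fun g => measurePreserving_smul g mu⟩, ?_,
    alp_smooth, fun x => lt_of_lt_of_le (by norm_num) (alp_ge x), ?_, ?_, continuous_psi, ?_,
    ?_, ?_⟩
  · refine ⟨1, Heis.of 0 1 0, fun h => ?_⟩
    have h3 := congrArg (fun g : Heis => g.2.2) h
    simp at h3
  · rw [hflow]
    refine ⟨⟨inferInstance, measurePreserving_flo⟩, fun ν hν hinv => ?_⟩
    exact unique_ergodic bet_irrational ν (fun t => (hinv t).map_eq)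
  · rw [hflow]
    exact nontrivial_alp
  · rw [hflow]
    refine ⟨psi_zero, psi_add, fun t x => ?_⟩
    exact psi_aa t x
  · rw [hnu]
    exact ⟨inferInstance, fun t => ⟨measurable_psi t, map_psi_nu t⟩⟩
  · rw [hnu]
    intro h
    exact not_tendsto_ww (h AA AA measurableSet_AA measurableSet_AA)
  · rw [hnu]
    intro h
    exact not_tendsto_corr (h AA AA measurableSet_AA measurableSet_AA)

end Pool.Agent.Results.MP_442888_an.HeisenbergTimeChange
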